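import Pool.Agent.Y451.AM.Defs

set_option autoImplicit false

/-!
# Statements for project AM: local problems on amenable groups

The finite statements `S_ENT`, `S_PIN`, `S_MAX`, `S_COU`, the entropy `Hent` and the digits `dg` are
those of `Pool.Agent.Y451.FM`.
-/

open MeasureTheory

noncomputable section

namespace Pool.Agent.Y451.AM

open Pool.Agent.Y451.FM (dg Hent)

/-- APX: measurable functions are approximated by functions of finitely many digits. -/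
def S_APX : Prop :=
  ∀ (Γ : Type) [Group Γ] [Countable Γ] (k : ℕ) (F : Om Γ → Fin k), Measurable F →
    ∀ η : ℝ, 0 < η →
    ∃ (r : ℕ) (U : Finset Γ) (Fr : (Γ → Fin (2 ^ r + 1)) → Fin k),
      (∀ c c' : Γ → Fin (2 ^ r + 1), (∀ v ∈ U, c v = c' v) → Fr c = Fr c') ∧
      (PP Γ).real {b | F b ≠ Fr (fun v => dg r (b v))} ≤ η

/-- PRD: independence and stationarity. -/
def S_PRD : Prop :=
  (∀ r : ℕ, Measurable (dg r)) ∧
  (∀ (Γ : Type) [Group Γ] [Countable Γ] (g : Γ), MeasurePreserving (sh g) (PP Γ) (PP Γ)) ∧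
  ∀ (Γ : Type) [Group Γ] [Countable Γ] (r m : ℕ) (e : Fin m → Γ), Function.Injective e →
    ∀ c : Fin m → Fin (2 ^ r + 1),
    (PP Γ).real {b | ∀ i, dg r (b (e i)) = c i} =
      ∏ i, (volume : Measure unitInterval).real {x | dg r x = c i}

/-! ## tilings -/

/-- COL: finite Borel colourings. -/
def S_COL : Prop :=
  ∀ (Γ : Type) [Group Γ] [Countable Γ] (X : Type) [MeasurableSpace X] [StandardBorelSpace X]
    (a : Γ → X → X), Act Γ X a → ∀ D : Finset Γ, ∃ (M : ℕ) (κ : X → Fin M), Measurable κ ∧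
      ∀ x, ∀ g ∈ D, ∀ h ∈ D, κ (a g x) = κ (a h x) → g = h

/-- RND: one round of the construction of a random partial tiling. -/
def S_RND : Prop :=
  ∀ (Γ : Type) [Group Γ] [Countable Γ] (X : Type) [MeasurableSpace X] [StandardBorelSpace X]
    (a : Γ → X → X), Act Γ X a → ∀ K S : Finset Γ, K.Nonempty → (∀ s ∈ S, s⁻¹ ∈ S) →
    ∃ c : ℝ, 0 < c ∧ ∀ D : Finset Γ, ∃ D' : Finset Γ,
      ∀ (Ω : Type) [Fintype Ω] [Nonempty Ω] (p : Ω → X → Option Γ), TilF a K S D' p →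
      ∃ (Ω' : Type) (_ : Fintype Ω') (_ : Nonempty Ω') (p' : Ω' → X → Option Γ),
        TilF a K S D p' ∧
        ∀ x, min (1 / 4) (pr (fun ω => p ω x ≠ none) + c) ≤ pr (fun ω => p' ω x ≠ none)

/-- TIL: random partial tilings. -/
def S_TIL : Prop :=
  ∀ (Γ : Type) [Group Γ] [Countable Γ], Amen Γ →
    ∀ (X : Type) [Nonempty X] [MeasurableSpace X] [StandardBorelSpace X]
    (a : Γ → X → X), Act Γ X a → ∀ (S : Finset Γ) (ε : ℝ), 0 < ε →
    ∃ (K : Finset Γ) (q : Finset Γ → ℝ) (Ω : Type) (_ : Fintype Ω) (_ : Nonempty Ω)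
      (p : Ω → X → Option Γ), (∀ ω, Til K (p ω)) ∧ (∀ A, 0 ≤ q A) ∧
      1 / 4 ≤ ∑ A ∈ K.powerset, q A * (A.card : ℝ) ∧
      ∑ A ∈ K.powerset, q A * (A.card : ℝ) ≤ 1 ∧
      ∑ A ∈ K.powerset, q A * ((bd S A).card : ℝ) ≤ ε ∧
      ∀ x, ∀ A ∈ K.powerset, ∀ v ∈ A,
        pr (fun ω => p ω x = some v ∧ shp a K (p ω) (a v⁻¹ x) = A) = q A

/-! ## one tile -/

/-- the bound for the sum of the errors in the tile `A` -/
def bnd {Γ : Type} [Group Γ] (S : Finset Γ) (C ε : ℝ) (A : Finset Γ) : ℝ :=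
  ε * (A.card : ℝ) + C * ((bd S A).card : ℝ) +
    C * Real.sqrt ((A.card : ℝ) * ((bd S A).card : ℝ))

/-- CPL: the coupling of one tile. `D` is the set of deep points, `P c v` the frozen labels,
`κ l c u` the joint weights of the collar pattern `l`, the frozen digits `c` and the filling `u`. -/
def S_CPL : Prop :=
  ∀ (Γ : Type) [Group Γ] [Countable Γ] (k : ℕ) (W : Finset Γ) (F : Om Γ → Fin k), Measurable F →
    ∀ (t : Finset Γ) (ε : ℝ), 0 < ε → ∃ (S : Finset Γ) (C : ℝ), 0 ≤ C ∧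
    ∀ A : Finset Γ, ∃ (eps : Γ → ℝ) (D : Finset Γ),
      (∀ v, 0 ≤ eps v) ∧ ∑ v ∈ A, eps v ≤ bnd S C ε A ∧
      (∀ v ∈ A, v ∉ D → 1 ≤ eps v) ∧
      ∀ T : Γ → Rule Γ k t,
        ∃ (Cs : Type) (_ : Fintype Cs) (q : Cs → ℝ) (P : Cs → Γ → Fin k)
          (κ : Pat Γ k (bd (dif W) A) → Cs → Pat Γ k A → ℝ),
          (∀ c, 0 ≤ q c) ∧ ∑ c, q c = 1 ∧ (∀ l c u, 0 ≤ κ l c u) ∧
          (∀ l c u, κ l c u ≠ 0 →
            0 < (PP Γ).real {b | rs (bd (dif W) A) (tb T (sg F b)) = l ∧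
              rs A (tb T (sg F b)) = u}) ∧
          (∀ l c, ∑ u, κ l c u =
            (PP Γ).real {b | rs (bd (dif W) A) (tb T (sg F b)) = l} * q c) ∧
          (∀ (v : Γ) (hv : v ∈ A), v ∈ D →
            ∑ l, ∑ c, ∑ u, (if u ⟨v, hv⟩ = P c v then 0 else κ l c u) ≤ eps v) ∧
          ∀ v ∈ A, v ∈ D → ∀ y : Fin k,
            ∑ c, q c * (if P c v = y then 0 else 1) ≤
              (PP Γ).real {b | tb T (sg F b) v ≠ y} + eps v

/-- BOX: the tile lemma. -/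
def S_BOX : Prop :=
  ∀ (Γ : Type) [Group Γ] [Countable Γ] (k : ℕ) (W : Finset Γ) (Pr : (Γ → Fin k) → Prop),
    LocP W Pr → ∀ F : Om Γ → Fin k, Measurable F → (∀ᵐ b ∂PP Γ, Sol Pr (sg F b)) →
    ∀ (t : Finset Γ) (ε : ℝ), 0 < ε → ∃ (S : Finset Γ) (C : ℝ), 0 ≤ C ∧
    ∀ A : Finset Γ, ∃ eps : Γ → ℝ,
      (∀ v, 0 ≤ eps v) ∧ ∑ v ∈ A, eps v ≤ bnd S C ε A ∧
      ∀ (T : Γ → Rule Γ k t) (p : Γ → Fin k) (M : Γ → ℝ) (κ : ℝ),
        (∀ v, 0 ≤ M v) → 0 ≤ κ →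
        (∀ w, Sol Pr w → ∀ g, win W A g → Pr (sh g (tb T w))) →
        ∃ (Q : Γ → Fin k) (Φ : (Γ → Fin k) → Γ → Fin k), Fill W A Pr Φ ∧
          ∑ v ∈ A, M v * ((PP Γ).real {b | Φ (tb T (sg F b)) v ≠ Q v} +
              κ * (if Q v = p v then 0 else 1)) ≤
            ∑ v ∈ A, M v * (eps v +
              κ * ((PP Γ).real {b | tb T (sg F b) v ≠ p v} + eps v))

/-! ## one step -/

/-- NEW: the next stage, made from fillings of the tiles. -/
def S_NEW : Prop :=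
  ∀ (Γ : Type) [Group Γ] [Countable Γ] (k : ℕ) (W : Finset Γ) (Pr : (Γ → Fin k) → Prop),
    LocP W Pr →
    ∀ (X : Type) [MeasurableSpace X] [StandardBorelSpace X] (a : Γ → X → X), Act Γ X a →
    ∀ (S : Stage Γ k Pr X a) (K : Finset Γ) (d : Fin k) (p : X → Option Γ), Til K p →
    ∀ (Q : Finset Γ → Ty Γ k S.t K → Γ → Fin k)
      (Φ : Finset Γ → Ty Γ k S.t K → (Γ → Fin k) → Γ → Fin k),
      (∀ y : X, Fill W (shp a K p y) Pr (Φ (shp a K p y) (tyX S K y))) →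
    ∃ S' : Stage Γ k Pr X a,
      (∀ (x : X) (v : Γ), p x = some v →
        (∀ ω : Γ → Fin k, ev (S'.R x) ω =
          Φ (shp a K p (a v⁻¹ x)) (tyX S K (a v⁻¹ x))
            (tb (TT d (tyX S K (a v⁻¹ x))) (sh v⁻¹ ω)) v) ∧
        S'.ψ x = Q (shp a K p (a v⁻¹ x)) (tyX S K (a v⁻¹ x)) v) ∧
      ∀ x : X, p x = none →
        (∀ ω : Γ → Fin k, ev (S'.R x) ω = ev (S.R x) ω) ∧ S'.ψ x = S.ψ x

/-- STEP: one step of the construction. -/
def S_STEP : Prop :=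
  ∀ (Γ : Type) [Group Γ] [Countable Γ], Amen Γ →
    ∀ (k : ℕ) (W : Finset Γ) (Pr : (Γ → Fin k) → Prop), LocP W Pr →
    ∀ F : Om Γ → Fin k, Measurable F → (∀ᵐ b ∂PP Γ, Sol Pr (sg F b)) →
    ∀ (X : Type) [MeasurableSpace X] [StandardBorelSpace X] (a : Γ → X → X), Act Γ X a →
    ∀ (μ : Measure X) [IsFiniteMeasure μ] (S : Stage Γ k Pr X a) (δ : ℝ), 0 < δ →
    ∃ S' : Stage Γ k Pr X a,
      ∫ x, S'.err F x ∂μ + (1 / 8) * μ.real {x | S'.ψ x ≠ S.ψ x} ≤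
        (7 / 8) * ∫ x, S.err F x ∂μ + δ

/-- LIM: the limit of the construction. -/
def S_LIM : Prop :=
  S_STEP → ∀ (Γ : Type) [Group Γ] [Countable Γ], Amen Γ →
    ∀ (k : ℕ) (W : Finset Γ) (Pr : (Γ → Fin k) → Prop), LocP W Pr →
    ∀ F : Om Γ → Fin k, Measurable F → (∀ᵐ b ∂PP Γ, Sol Pr (sg F b)) →
    ∀ (X : Type) [MeasurableSpace X] [StandardBorelSpace X] (a : Γ → X → X), Act Γ X a →
    ∀ (μ : Measure X) [IsProbabilityMeasure μ],
    ∃ f : X → Fin k, Measurable f ∧ ∀ᵐ x ∂μ, Pr (fun v => f (a v x))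

/-! ## the final theorem -/

/-- `f` is a measurable solution of the problem with window `W` and allowed patterns `P`. -/
def Solvable {Γ : Type} {k : ℕ} {W : Finset Γ} (P : Set ({g : Γ // g ∈ W} → Fin k))
    (X : Type) [MeasurableSpace X] (a : Γ → X → X) (μ : Measure X) : Prop :=
  ∃ f : X → Fin k, Measurable f ∧ ∀ᵐ x ∂μ, (fun g : {g : Γ // g ∈ W} => f (a g.1 x)) ∈ P

/-- the free part of the shift on `[0,1]^Γ` -/
abbrev Free (Γ : Type) [Group Γ] := {x : Γ → unitInterval //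
  ∀ g : Γ, (fun h => x (h * g)) = x → g = 1}

/-- the shift on the free part -/
def shF {Γ : Type} [Group Γ] (g : Γ) (x : Free Γ) : Free Γ :=
  ⟨fun h => x.1 (h * g), fun g' h' => by
    have h1 := x.2 (g⁻¹ * g' * g) (by
      funext h
      have := congrFun h' (h * g⁻¹)
      simp only [mul_assoc, inv_mul_cancel, mul_one] at this
      rw [show h * (g⁻¹ * g' * g) = h * (g⁻¹ * (g' * g)) by rw [mul_assoc g⁻¹]]
      exact this)
    rw [mul_assoc, inv_mul_eq_one] at h1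
    exact (mul_eq_right.1 h1.symm)⟩

/-- the product measure on the free part -/
def bern (Γ : Type) [Group Γ] : Measure (Free Γ) :=
  Measure.comap Subtype.val (Measure.infinitePi fun _ : Γ => (volume : Measure unitInterval))

/-- FIN: the final theorem. -/
def S_FIN : Prop :=
  S_STEP → S_LIM → S_PRD → ∀ (Γ : Type) [Group Γ] [Countable Γ], Amen Γ →
    ∀ (k : ℕ) (W : Finset Γ) (P : Set ({g : Γ // g ∈ W} → Fin k)),
    (IsProbabilityMeasure (bern Γ) ∧ StandardBorelSpace (Free Γ) ∧ Act Γ (Free Γ) shF ∧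
      (∀ g, (bern Γ).map (shF g) = bern Γ)) ∧
    (Solvable P (Free Γ) shF (bern Γ) →
      ∀ (X : Type) [MeasurableSpace X] [StandardBorelSpace X] (a : Γ → X → X), Act Γ X a →
        ∀ (μ : Measure X) [IsProbabilityMeasure μ], Solvable P X a μ)

/-- UNF: unfriendly colourings of the Bernoulli shift. -/
def S_UNF : Prop :=
  ∀ (Γ : Type) [Group Γ] [Countable Γ] (T : Finset Γ), (∀ s ∈ T, s⁻¹ ∈ T) → 1 ∉ T →
    ∃ F : Om Γ → Fin 2, Measurable F ∧
      ∀ᵐ b ∂PP Γ, T.card ≤ 2 * {s : Γ | s ∈ T ∧ F (sh s b) ≠ F b}.ncard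

end Pool.Agent.Y451.AM

end
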