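import Pool.Agent.Y451.FM.Stm

set_option autoImplicit false

/-!
# Definitions for project AM: local problems on amenable groups
-/

open MeasureTheory

noncomputable section

namespace Pool.Agent.Y451.AM

/-- amenability (left Folner sets) -/
def Amen (Γ : Type) [Group Γ] : Prop :=
  ∀ (S : Finset Γ) (ε : ℝ), 0 < ε → ∃ K : Finset Γ, K.Nonempty ∧
    ∀ s ∈ S, (({v : Γ | v ∈ K ∧ s * v ∉ K}.ncard : ℕ) : ℝ) ≤ ε * (K.card : ℝ)

/-- the shift: `(g • w)(h) = w (h * g)` -/
def sh {Γ A : Type} [Group Γ] (g : Γ) (w : Γ → A) : Γ → A := fun h => w (h * g)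

/-- the probability space of independent uniform labels -/
abbrev Om (Γ : Type) := Γ → unitInterval

/-- the product of Lebesgue measures -/
def PP (Γ : Type) : Measure (Om Γ) :=
  Measure.infinitePi (fun _ : Γ => (volume : Measure unitInterval))

instance (Γ : Type) : IsProbabilityMeasure (PP Γ) := by
  unfold PP; infer_instance

/-- the predicate `Pr` on configurations depends only on the window `W` -/
def LocP {Γ : Type} {k : ℕ} (W : Finset Γ) (Pr : (Γ → Fin k) → Prop) : Prop :=
  ∀ w w' : Γ → Fin k, (∀ v ∈ W, w v = w' v) → Pr w → Pr w'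

/-- correct configurations -/
def Sol {Γ : Type} [Group Γ] {k : ℕ} (Pr : (Γ → Fin k) → Prop) (w : Γ → Fin k) : Prop :=
  ∀ g, Pr (sh g w)

/-- the configuration given by the factor map `F` -/
def sg {Γ : Type} [Group Γ] {k : ℕ} (F : Om Γ → Fin k) (b : Om Γ) : Γ → Fin k :=
  fun v => F (sh v b)

/-- local rules with window `t` -/
abbrev Rule (Γ : Type) (k : ℕ) (t : Finset Γ) := ({v : Γ // v ∈ t} → Fin k) → Fin k

/-- value of a local rule at a configuration -/
def ev {Γ : Type} {k : ℕ} {t : Finset Γ} (r : Rule Γ k t) (w : Γ → Fin k) : Fin k :=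
  r (fun v => w v.1)

/-- configuration obtained by applying the rule `T v` at the position `v` -/
def tb {Γ : Type} [Group Γ] {k : ℕ} {t : Finset Γ} (T : Γ → Rule Γ k t) (w : Γ → Fin k) :
    Γ → Fin k :=
  fun v => ev (T v) (sh v w)

/-- the window `W` about `g` is contained in `A` -/
def win {Γ : Type} [Group Γ] (W A : Finset Γ) (g : Γ) : Prop := ∀ v ∈ W, v * g ∈ A

open Classical in
/-- the points of `A` from which some `s ∈ S` leads out of `A` -/
def bd {Γ : Type} [Group Γ] (S A : Finset Γ) : Finset Γ :=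
  A.filter fun v => ∃ s ∈ S, s * v ∉ A

open Classical in
/-- the quotients of the elements of `W` -/
def dif {Γ : Type} [Group Γ] (W : Finset Γ) : Finset Γ :=
  (W ×ˢ W).image fun p => p.1 * p.2⁻¹

/-- free measurable actions of `Γ` -/
structure Act (Γ : Type) [Group Γ] (X : Type) [MeasurableSpace X] (a : Γ → X → X) : Prop where
  one : ∀ x, a 1 x = x
  mul : ∀ g h x, a (g * h) x = a g (a h x)
  meas : ∀ g, Measurable (a g)
  free : ∀ g x, a g x = x → g = 1

/-- A stage of the construction: a measurable family of local rules `R`, with window `t`, which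
maps correct configurations to correct configurations, and an approximate labelling `ψ`. -/
structure Stage (Γ : Type) [Group Γ] (k : ℕ) (Pr : (Γ → Fin k) → Prop) (X : Type)
    [MeasurableSpace X] (a : Γ → X → X) where
  t : Finset Γ
  R : X → Rule Γ k t
  ψ : X → Fin k
  mR : Measurable R
  mψ : Measurable ψ
  val : ∀ x w, Sol Pr w → Sol Pr (fun u => ev (R (a u x)) (sh u w))

/-- probability that the random label differs from the approximate label -/
def Stage.err {Γ : Type} [Group Γ] {k : ℕ} {Pr : (Γ → Fin k) → Prop} {X : Type}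
    [MeasurableSpace X] {a : Γ → X → X} (S : Stage Γ k Pr X a) (F : Om Γ → Fin k) (x : X) : ℝ :=
  (PP Γ).real {b | ev (S.R x) (sg F b) ≠ S.ψ x}

/-- the values of a configuration on a finite set -/
abbrev Pat (Γ : Type) (k : ℕ) (E : Finset Γ) := {v : Γ // v ∈ E} → Fin k

instance {Γ : Type} {k : ℕ} (E : Finset Γ) : Fintype (Pat Γ k E) := Fintype.ofFinite _

/-- restriction of a configuration to a finite set -/
def rs {Γ : Type} {k : ℕ} (E : Finset Γ) (w : Γ → Fin k) : Pat Γ k E := fun v => w v.1

/-- the type of a tile: the local rules and the approximate labels in it -/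
abbrev Ty (Γ : Type) (k : ℕ) (t K : Finset Γ) := (({v : Γ // v ∈ K}) → Rule Γ k t) × (Pat Γ k K)

instance {Γ : Type} {k : ℕ} (t K : Finset Γ) : Fintype (Ty Γ k t K) := Fintype.ofFinite _

/-- the type of the tile with centre `y` -/
def tyX {Γ : Type} [Group Γ] {k : ℕ} {Pr : (Γ → Fin k) → Prop} {X : Type} [MeasurableSpace X]
    {a : Γ → X → X} (S : Stage Γ k Pr X a) (K : Finset Γ) (y : X) : Ty Γ k S.t K :=
  (fun v => S.R (a v.1 y), fun v => S.ψ (a v.1 y))

open Classical in
/-- the rules of a type as a function on the whole group -/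
def TT {Γ : Type} {k : ℕ} {t K : Finset Γ} (d : Fin k) (τ : Ty Γ k t K) : Γ → Rule Γ k t :=
  fun v => if h : v ∈ K then τ.1 ⟨v, h⟩ else fun _ => d

open Classical in
/-- the labels of a type as a function on the whole group -/
def pp {Γ : Type} {k : ℕ} {t K : Finset Γ} (d : Fin k) (τ : Ty Γ k t K) : Γ → Fin k :=
  fun v => if h : v ∈ K then τ.2 ⟨v, h⟩ else d

/-- properties of a filling `Φ` of the tile `A` -/
def Fill {Γ : Type} [Group Γ] {k : ℕ} (W A : Finset Γ) (Pr : (Γ → Fin k) → Prop)
    (Φ : (Γ → Fin k) → Γ → Fin k) : Prop :=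
  (∀ τ τ' : Γ → Fin k, (∀ v ∈ bd (dif W) A, τ v = τ' v) → Φ τ = Φ τ') ∧
  (∀ τ : Γ → Fin k, (∀ g, win W A g → Pr (sh g τ)) →
    (∀ v ∈ bd (dif W) A, Φ τ v = τ v) ∧ ∀ g, win W A g → Pr (sh g (Φ τ)))

/-! ## tilings -/

open Classical in
/-- probability for the uniform measure on a finite set -/
def pr {Ω : Type} [Fintype Ω] (E : Ω → Prop) : ℝ :=
  (∑ ω : Ω, if E ω then (1 : ℝ) else 0) / (Fintype.card Ω : ℝ)

open Classical in
/-- `p x = some v` means that `x` is at the position `v` of a tile, whose centre is `a v⁻¹ x`;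
`shp a K p y` is the shape of the tile with centre `y`. -/
def shp {Γ X : Type} (a : Γ → X → X) (K : Finset Γ) (p : X → Option Γ) (y : X) :
    Finset Γ :=
  K.filter fun u => p (a u y) = some u

/-- a partial tiling of `X` by parts of translates of `K` -/
structure Til {Γ X : Type} [MeasurableSpace X] (K : Finset Γ) (p : X → Option Γ) : Prop where
  meas : ∀ o : Option Γ, MeasurableSet {x | p x = o}
  mem : ∀ x v, p x = some v → v ∈ K

/-- The law of the random partial tiling `p` on the window `D` is the same about all points. -/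
def LawInv {Γ X Ω : Type} [Fintype Ω] (a : Γ → X → X) (D : Finset Γ) (p : Ω → X → Option Γ) :
    Prop :=
  ∀ (x x' : X) (E : (Γ → Option Γ) → Prop),
    (∀ z z' : Γ → Option Γ, (∀ g ∈ D, z g = z' g) → E z → E z') →
    pr (fun ω => E (fun g => p ω (a g x))) = pr (fun ω => E (fun g => p ω (a g x')))

/-- random partial tilings whose boundaries come from the boundary of `K` -/
structure TilF {Γ X Ω : Type} [Group Γ] [MeasurableSpace X] [Fintype Ω] (a : Γ → X → X)
    (K S D : Finset Γ) (p : Ω → X → Option Γ) : Prop where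
  til : ∀ ω, Til K (p ω)
  g2 : ∀ ω x v s, s ∈ S → p ω x = some v → s * v ∈ K →
    ∃ v', p ω (a s x) = some v' ∧ (v' = s * v ∨ s⁻¹ * v' ∉ K)
  g3 : ∀ ω y, (shp a K (p ω) y).Nonempty → K.card ≤ 2 * (shp a K (p ω) y).card
  law : LawInv a D p

end Pool.Agent.Y451.AM

end
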