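import Pool.Agent.Y451.AM.Use
import Pool.Agent.Y240.FM.Cou
import Pool.Agent.Y801.FM.Ent
import Pool.Agent.Y801.FM.Max
import Pool.Agent.Y801.FM.Pin
import Pool.Agent.Y972.AM.PrdApx
import Pool.Agent.Y376.AM.Rnd
import Pool.Agent.Y314.AM.Cpl
import Pool.Agent.Y442.AM.New

set_option autoImplicit false

/-!
# Local problems on amenable groups: assembly
-/

open MeasureTheory

noncomputable section

namespace Pool.Agent.Y451.AM

theorem coupling : S_CPL :=
  Pool.Agent.Y314.AM.cpl
    (Pool.Agent.Y240.FM.done Pool.Agent.Y801.FM.Pin.done Pool.Agent.Y801.FM.Max.done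
      Pool.Agent.Y801.FM.Ent.done)
    Pool.Agent.Y801.FM.Ent.done Pool.Agent.Y972.AM.apx Pool.Agent.Y972.AM.prd

theorem oneStep : S_STEP :=
  step Pool.Agent.Y442.AM.new (Pool.Agent.Y469.AM.box coupling)
    (Pool.Agent.Y381.AM.til (Pool.Agent.Y376.AM.rnd Pool.Agent.Y182.AM.Col.col))
    Pool.Agent.Y972.AM.prd

/-- **Main theorem.** A local problem on a countable amenable group with a measurable solution on
the free part of the Bernoulli shift `[0,1]^Γ` has a measurable solution for every free Borel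
action on a standard Borel space and every Borel probability measure. -/
theorem main {Γ : Type} [Group Γ] [Countable Γ] (hAm : Amen Γ) {k : ℕ}
    {W : Finset Γ} (P : Set ({g : Γ // g ∈ W} → Fin k))
    (h : Solvable P (Free Γ) shF (bern Γ))
    (X : Type) [MeasurableSpace X] [StandardBorelSpace X] (a : Γ → X → X) (ha : Act Γ X a)
    (μ : Measure X) [IsProbabilityMeasure μ] : Solvable P X a μ :=
  allOf oneStep Pool.Agent.Y972.AM.prd hAm P h X a ha μ

theorem bernoulli {Γ : Type} [Group Γ] [Countable Γ] (hAm : Amen Γ) :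
    IsProbabilityMeasure (bern Γ) ∧ StandardBorelSpace (Free Γ) ∧ Act Γ (Free Γ) shF ∧
      (∀ g, (bern Γ).map (shF g) = bern Γ) :=
  bernOf oneStep Pool.Agent.Y972.AM.prd hAm

theorem unfriendly {Γ : Type} [Group Γ] [Countable Γ] (hAm : Amen Γ)
    (T : Finset Γ) (hT : ∀ s ∈ T, s⁻¹ ∈ T) (h1 : 1 ∉ T)
    (X : Type) [MeasurableSpace X] [StandardBorelSpace X] (a : Γ → X → X) (ha : Act Γ X a)
    (μ : Measure X) [IsProbabilityMeasure μ] :
    ∃ f : X → Fin 2, Measurable f ∧
      ∀ᵐ x ∂μ, T.card ≤ 2 * {s : Γ | s ∈ T ∧ f (a s x) ≠ f x}.ncard :=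
  unfOf oneStep Pool.Agent.Y972.AM.prd hAm T hT h1 X a ha μ

end Pool.Agent.Y451.AM

end
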