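import Pool.Agent.Y451.AM.Stm

set_option autoImplicit false

/-! # One step of the construction -/

open MeasureTheory

noncomputable section

namespace Pool.Agent.Y451.AM

theorem sh_sg {Γ : Type} [Group Γ] {k : ℕ} (F : Om Γ → Fin k) (g : Γ) (b : Om Γ) :
    sh g (sg F b) = sg F (sh g b) := by
  funext h
  unfold sh sg sh
  congr 1
  funext u
  simp only
  rw [mul_assoc]

/-- the shift as a measurable equivalence -/
def shE (hP : S_PRD) {Γ : Type} [Group Γ] [Countable Γ] (g : Γ) : Om Γ ≃ᵐ Om Γ where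
  toFun := sh g
  invFun := sh g⁻¹
  left_inv b := by funext h; simp [sh]
  right_inv b := by funext h; simp [sh]
  measurable_toFun := (hP.2.1 Γ g).measurable
  measurable_invFun := (hP.2.1 Γ g⁻¹).measurable

/-- stationarity -/
theorem stat (hP : S_PRD) {Γ : Type} [Group Γ] [Countable Γ] {k : ℕ} (F : Om Γ → Fin k) (g : Γ)
    (E : (Γ → Fin k) → Prop) :
    (PP Γ).real {b | E (sh g (sg F b))} = (PP Γ).real {b | E (sg F b)} := by
  have h1 : MeasurePreserving (shE hP g) (PP Γ) (PP Γ) := hP.2.1 Γ g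
  have h2 := h1.measure_preimage_equiv {b | E (sg F b)}
  unfold Measure.real
  rw [← h2]
  congr 2
  ext b
  simp only [Set.mem_ofPred_eq, Set.mem_preimage]
  rw [sh_sg]
  rfl

section

variable {Γ : Type} [Group Γ] {k : ℕ} {W : Finset Γ} {Pr : (Γ → Fin k) → Prop}
  {X : Type} [MeasurableSpace X] {a : Γ → X → X}

theorem act_cancel (ha : Act Γ X a) (v : Γ) (x : X) : a v (a v⁻¹ x) = x := by
  rw [← ha.mul, mul_inv_cancel, ha.one]

theorem measurable_tyX (ha : Act Γ X a) (S : Stage Γ k Pr X a) (K : Finset Γ) :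
    Measurable (tyX S K) := by
  unfold tyX
  refine Measurable.prodMk ?_ ?_
  · exact measurable_pi_lambda _ fun v => S.mR.comp (ha.meas v.1)
  · exact measurable_pi_lambda _ fun v => S.mψ.comp (ha.meas v.1)

theorem err_eq (S : Stage Γ k Pr X a) (F : Om Γ → Fin k) :
    S.err F = (fun p : Rule Γ k S.t × Fin k => (PP Γ).real {b | ev p.1 (sg F b) ≠ p.2}) ∘
      fun x => (S.R x, S.ψ x) := rfl

theorem measurable_err (S : Stage Γ k Pr X a) (F : Om Γ → Fin k) : Measurable (S.err F) := by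
  rw [err_eq]
  exact (measurable_of_countable _).comp (S.mR.prodMk S.mψ)

theorem err_nonneg (S : Stage Γ k Pr X a) (F : Om Γ → Fin k) (x : X) : 0 ≤ S.err F x :=
  measureReal_nonneg

theorem err_le_one (S : Stage Γ k Pr X a) (F : Om Γ → Fin k) (x : X) : S.err F x ≤ 1 :=
  measureReal_le_one

theorem integrable_err (S : Stage Γ k Pr X a) (F : Om Γ → Fin k) (μ : Measure X)
    [IsFiniteMeasure μ] : Integrable (S.err F) μ := by
  refine Integrable.of_bound (measurable_err S F).aestronglyMeasurable 1 ?_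
  refine Filter.Eventually.of_forall fun x => ?_
  rw [Real.norm_eq_abs, abs_of_nonneg (err_nonneg S F x)]
  exact err_le_one S F x

/-- the rules of the type of the tile about `y` -/
theorem tb_TT (ha : Act Γ X a) (S : Stage Γ k Pr X a) {K : Finset Γ} (d : Fin k) (x : X)
    {v : Γ} (hv : v ∈ K) (ω : Γ → Fin k) :
    tb (TT d (tyX S K (a v⁻¹ x))) ω v = ev (S.R x) (sh v ω) := by
  unfold tb TT tyX
  rw [dif_pos hv]
  simp only
  rw [act_cancel ha]

theorem pp_ty (ha : Act Γ X a) (S : Stage Γ k Pr X a) {K : Finset Γ} (d : Fin k) (x : X)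
    {v : Γ} (hv : v ∈ K) :
    pp d (tyX S K (a v⁻¹ x)) v = S.ψ x := by
  unfold pp tyX
  rw [dif_pos hv]
  simp only
  rw [act_cancel ha]

theorem eold_eq [Countable Γ] (hP : S_PRD) (ha : Act Γ X a) (S : Stage Γ k Pr X a)
    (F : Om Γ → Fin k) {K : Finset Γ} (d : Fin k) (x : X) {v : Γ} (hv : v ∈ K) :
    (PP Γ).real {b | tb (TT d (tyX S K (a v⁻¹ x))) (sg F b) v ≠ pp d (tyX S K (a v⁻¹ x)) v} =
      S.err F x := by
  simp_rw [tb_TT ha S d x hv, pp_ty ha S d x hv]
  exact stat hP F v fun ω => ev (S.R x) ω ≠ S.ψ x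

theorem valid_TT (hloc : LocP W Pr) (S : Stage Γ k Pr X a) {A K : Finset Γ} (hA : A ⊆ K)
    (d : Fin k) (y : X) (ω : Γ → Fin k) (hω : Sol Pr ω) (g : Γ) (hg : win W A g) :
    Pr (sh g (tb (TT d (tyX S K y)) ω)) := by
  have h := S.val y ω hω g
  refine hloc _ _ (fun v hv => ?_) h
  have h1 := hA (hg v hv)
  unfold sh tb TT tyX
  rw [dif_pos h1]
  rfl

variable {K : Finset Γ} {p : X → Option Γ}

open Classical in
theorem mem_shp {y : X} {v : Γ} : v ∈ shp a K p y ↔ v ∈ K ∧ p (a v y) = some v := by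
  unfold shp
  rw [Finset.mem_filter]

theorem shp_sub (y : X) : shp a K p y ⊆ K := fun _ h => (mem_shp.1 h).1

theorem pos_mem (ha : Act Γ X a) (hp : Til K p) {x : X} {v : Γ} (h : p x = some v) :
    v ∈ shp a K p (a v⁻¹ x) := by
  rw [mem_shp, act_cancel ha]
  exact ⟨hp.mem x v h, h⟩

theorem measurable_shp (ha : Act Γ X a) (hp : Til K p) (A : Finset Γ) :
    MeasurableSet {y | shp a K p y = A} := by
  classical
  by_cases hA : A ⊆ K
  · have h : {y | shp a K p y = A} =
        ⋂ u ∈ K, {y | p (a u y) = some u ↔ u ∈ A} := by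
      ext y
      simp only [Set.mem_ofPred_eq, Set.mem_iInter]
      constructor
      · rintro rfl u hu
        rw [mem_shp]
        exact ⟨fun h => ⟨hu, h⟩, fun h => h.2⟩
      · intro h
        ext u
        rw [mem_shp]
        constructor
        · rintro ⟨hu, h1⟩
          exact (h u hu).1 h1
        · intro hu
          exact ⟨hA hu, (h u (hA hu)).2 hu⟩
    rw [h]
    refine Finset.measurableSet_biInter _ fun u _ => ?_
    by_cases hu : u ∈ A
    · simp only [hu, iff_true]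
      exact ha.meas u (hp.meas (some u))
    · simp only [hu, iff_false]
      exact (ha.meas u (hp.meas (some u))).compl
  · have h : {y | shp a K p y = A} = (∅ : Set X) := by
      ext y
      simp only [Set.mem_ofPred_eq, Set.mem_empty_iff_false, iff_false]
      rintro rfl
      exact hA (shp_sub y)
    rw [h]
    exact MeasurableSet.empty

open Classical in
/-- a sum over shapes and positions -/
theorem pos_sum (ha : Act Γ X a) (hp : Til K p) {x : X} {v₀ : Γ} (h₀ : p x = some v₀)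
    (c : Finset Γ → Γ → ℝ) :
    ∑ A ∈ K.powerset, ∑ v ∈ A, (if p x = some v ∧ shp a K p (a v⁻¹ x) = A then c A v else 0) =
      c (shp a K p (a v₀⁻¹ x)) v₀ := by
  rw [Finset.sum_eq_single_of_mem (shp a K p (a v₀⁻¹ x)) (Finset.mem_powerset.2 (shp_sub _))]
  · rw [Finset.sum_eq_single_of_mem v₀ (pos_mem ha hp h₀)]
    · rw [if_pos ⟨h₀, rfl⟩]
    · intro v _ hne
      rw [if_neg]
      rintro ⟨h1, -⟩
      rw [h₀] at h1
      exact hne (Option.some.inj h1).symm
  · intro A _ hne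
    refine Finset.sum_eq_zero fun v _ => ?_
    rw [if_neg]
    rintro ⟨h1, h2⟩
    rw [h₀] at h1
    obtain rfl := Option.some.inj h1
    exact hne h2.symm

open Classical in
theorem none_sum {x : X} (h₀ : p x = none) (c : Finset Γ → Γ → ℝ) :
    ∑ A ∈ K.powerset, ∑ v ∈ A, (if p x = some v ∧ shp a K p (a v⁻¹ x) = A then c A v else 0) =
      0 := by
  refine Finset.sum_eq_zero fun A _ => Finset.sum_eq_zero fun v _ => ?_
  rw [if_neg]
  rintro ⟨h1, -⟩
  rw [h₀] at h1
  exact absurd h1 (by simp)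

open Classical in
/-- integral of a function of the shape, the type and the position -/
theorem int_types (ha : Act Γ X a) (hp : Til K p) (S : Stage Γ k Pr X a) (μ : Measure X)
    [IsFiniteMeasure μ] (c : Finset Γ → Ty Γ k S.t K → Γ → ℝ) :
    Integrable (fun x => ∑ A ∈ K.powerset, ∑ v ∈ A,
      (if p x = some v ∧ shp a K p (a v⁻¹ x) = A then c A (tyX S K (a v⁻¹ x)) v else 0)) μ ∧
    ∫ x, ∑ A ∈ K.powerset, ∑ v ∈ A,
      (if p x = some v ∧ shp a K p (a v⁻¹ x) = A then c A (tyX S K (a v⁻¹ x)) v else 0) ∂μ =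
      ∑ A ∈ K.powerset, ∑ τ, ∑ v ∈ A,
        μ.real {x | (p x = some v ∧ shp a K p (a v⁻¹ x) = A) ∧ tyX S K (a v⁻¹ x) = τ} *
          c A τ v := by
  have hm0 : ∀ (v : Γ) (A : Finset Γ),
      MeasurableSet {x | p x = some v ∧ shp a K p (a v⁻¹ x) = A} := fun v A =>
    (hp.meas (some v)).inter ((ha.meas v⁻¹) (measurable_shp ha hp A))
  have hm : ∀ (v : Γ) (A : Finset Γ) (τ : Ty Γ k S.t K),
      MeasurableSet {x | (p x = some v ∧ shp a K p (a v⁻¹ x) = A) ∧
        tyX S K (a v⁻¹ x) = τ} := fun v A τ =>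
    (hm0 v A).inter (((measurable_tyX ha S K).comp (ha.meas _)) (measurableSet_singleton τ))
  have h1 : ∀ x, ∑ A ∈ K.powerset, ∑ v ∈ A,
      (if p x = some v ∧ shp a K p (a v⁻¹ x) = A then c A (tyX S K (a v⁻¹ x)) v else 0) =
      ∑ A ∈ K.powerset, ∑ τ, ∑ v ∈ A, Set.indicator
        {x | (p x = some v ∧ shp a K p (a v⁻¹ x) = A) ∧ tyX S K (a v⁻¹ x) = τ}
        (fun _ => c A τ v) x := by
    intro x
    refine Finset.sum_congr rfl fun A _ => ?_
    rw [Finset.sum_comm]
    refine Finset.sum_congr rfl fun v _ => ?_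
    by_cases h : p x = some v ∧ shp a K p (a v⁻¹ x) = A
    · rw [if_pos h, Finset.sum_eq_single (tyX S K (a v⁻¹ x))]
      · rw [Set.indicator_of_mem]
        exact ⟨h, rfl⟩
      · intro τ _ hne
        rw [Set.indicator_of_notMem]
        rintro ⟨-, h2⟩
        exact hne h2.symm
      · intro h2
        exact absurd (Finset.mem_univ _) h2
    · rw [if_neg h, Finset.sum_eq_zero]
      intro τ _
      rw [Set.indicator_of_notMem]
      rintro ⟨h2, -⟩
      exact h h2
  have hi : ∀ (v : Γ) (A : Finset Γ) (τ : Ty Γ k S.t K),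
      Integrable (Set.indicator
        {x | (p x = some v ∧ shp a K p (a v⁻¹ x) = A) ∧ tyX S K (a v⁻¹ x) = τ}
        (fun _ => c A τ v)) μ := fun v A τ => (integrable_const _).indicator (hm v A τ)
  simp_rw [h1]
  refine ⟨integrable_finsetSum _ fun A _ => integrable_finsetSum _ fun τ _ =>
    integrable_finsetSum _ fun v _ => hi v A τ, ?_⟩
  rw [integral_finsetSum _ fun A _ => integrable_finsetSum _ fun τ _ =>
    integrable_finsetSum _ fun v _ => hi v A τ]
  refine Finset.sum_congr rfl fun A _ => ?_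
  rw [integral_finsetSum _ fun τ _ => integrable_finsetSum _ fun v _ => hi v A τ]
  refine Finset.sum_congr rfl fun τ _ => ?_
  rw [integral_finsetSum _ fun v _ => hi v A τ]
  refine Finset.sum_congr rfl fun v _ => ?_
  rw [integral_indicator_const _ (hm v A τ), smul_eq_mul]

open Classical in
/-- the pointwise majorant -/
def maj (a : Γ → X → X) (K : Finset Γ) (p : X → Option Γ) (eps : Finset Γ → Γ → ℝ)
    (e : X → ℝ) (x : X) : ℝ :=
  e x + ∑ A ∈ K.powerset, ∑ v ∈ A,
    (if p x = some v ∧ shp a K p (a v⁻¹ x) = A then (3 / 2) * eps A v - (1 / 2) * e x else 0)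

open Classical in
theorem integrable_maj (ha : Act Γ X a) (hp : Til K p) (S : Stage Γ k Pr X a)
    (F : Om Γ → Fin k) (μ : Measure X) [IsFiniteMeasure μ] (eps : Finset Γ → Γ → ℝ) :
    Integrable (maj a K p eps (S.err F)) μ := by
  have hm0 : ∀ (v : Γ) (A : Finset Γ),
      MeasurableSet {x | p x = some v ∧ shp a K p (a v⁻¹ x) = A} := fun v A =>
    (hp.meas (some v)).inter ((ha.meas v⁻¹) (measurable_shp ha hp A))
  unfold maj
  refine (integrable_err S F μ).add (integrable_finsetSum _ fun A _ =>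
    integrable_finsetSum _ fun v _ => ?_)
  have h := ((integrable_const ((3 / 2) * eps A v)).sub
    ((integrable_err S F μ).const_mul (1 / 2))).indicator (hm0 v A)
  refine h.congr (Filter.Eventually.of_forall fun x => ?_)
  by_cases hx : p x = some v ∧ shp a K p (a v⁻¹ x) = A
  · rw [Set.indicator_of_mem (by simpa using hx)]
    simp only
    rw [if_pos hx]
    rfl
  · rw [Set.indicator_of_notMem (by simpa using hx)]
    simp only
    rw [if_neg hx]

open Classical in
/-- the cost of one tiling -/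
theorem one [Countable Γ] (hNEW : S_NEW) (hPRD : S_PRD) [StandardBorelSpace X]
    (hloc : LocP W Pr) (F : Om Γ → Fin k) (ha : Act Γ X a)
    (μ : Measure X) [IsFiniteMeasure μ] (S : Stage Γ k Pr X a) (d : Fin k) (hp : Til K p)
    (eps : Finset Γ → Γ → ℝ)
    (hbox : ∀ (A : Finset Γ) (T : Γ → Rule Γ k S.t) (p : Γ → Fin k) (M : Γ → ℝ) (κ : ℝ),
        (∀ v, 0 ≤ M v) → 0 ≤ κ →
        (∀ w, Sol Pr w → ∀ g, win W A g → Pr (sh g (tb T w))) →
        ∃ (Q : Γ → Fin k) (Φ : (Γ → Fin k) → Γ → Fin k), Fill W A Pr Φ ∧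
          ∑ v ∈ A, M v * ((PP Γ).real {b | Φ (tb T (sg F b)) v ≠ Q v} +
              κ * (if Q v = p v then 0 else 1)) ≤
            ∑ v ∈ A, M v * (eps A v +
              κ * ((PP Γ).real {b | tb T (sg F b) v ≠ p v} + eps A v))) :
    ∃ S' : Stage Γ k Pr X a,
      ∫ x, S'.err F x ∂μ + (1 / 2) * μ.real {x | S'.ψ x ≠ S.ψ x} ≤
        ∫ x, maj a K p eps (S.err F) x ∂μ := by
  have hch : ∀ (A : Finset Γ) (τ : Ty Γ k S.t K),
      ∃ (Q : Γ → Fin k) (Φ : (Γ → Fin k) → Γ → Fin k),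
      ((∃ y, shp a K p y = A ∧ tyX S K y = τ) → Fill W A Pr Φ) ∧
      ∑ v ∈ A, μ.real {x | (p x = some v ∧ shp a K p (a v⁻¹ x) = A) ∧ tyX S K (a v⁻¹ x) = τ} *
          ((PP Γ).real {b | Φ (tb (TT d τ) (sg F b)) v ≠ Q v} +
            (1 / 2) * (if Q v = pp d τ v then 0 else 1)) ≤
        ∑ v ∈ A, μ.real {x | (p x = some v ∧ shp a K p (a v⁻¹ x) = A) ∧
            tyX S K (a v⁻¹ x) = τ} * (eps A v +
              (1 / 2) * ((PP Γ).real {b | tb (TT d τ) (sg F b) v ≠ pp d τ v} + eps A v)) := by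
    intro A τ
    by_cases hτ : ∃ y, shp a K p y = A ∧ tyX S K y = τ
    · obtain ⟨y, rfl, rfl⟩ := hτ
      obtain ⟨Q, Φ, h1, h2⟩ := hbox (shp a K p y) (TT d (tyX S K y)) (pp d (tyX S K y))
        (fun v => μ.real {x | (p x = some v ∧ shp a K p (a v⁻¹ x) = shp a K p y) ∧
          tyX S K (a v⁻¹ x) = tyX S K y}) (1 / 2)
        (fun v => measureReal_nonneg) (by norm_num)
        (fun ω hω g hg => valid_TT hloc S (shp_sub y) d y ω hω g hg)
      exact ⟨Q, Φ, fun _ => h1, h2⟩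
    · refine ⟨fun _ => d, fun τ => τ, fun h => absurd h hτ, ?_⟩
      have h0 : ∀ v : Γ, μ.real {x | (p x = some v ∧ shp a K p (a v⁻¹ x) = A) ∧
          tyX S K (a v⁻¹ x) = τ} = 0 := by
        intro v
        have : {x | (p x = some v ∧ shp a K p (a v⁻¹ x) = A) ∧
            tyX S K (a v⁻¹ x) = τ} = (∅ : Set X) := by
          ext x
          simp only [Set.mem_ofPred_eq, Set.mem_empty_iff_false, iff_false]
          rintro ⟨⟨-, h1⟩, h2⟩
          exact hτ ⟨_, h1, h2⟩
        rw [this]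
        simp
      simp_rw [h0]
      simp
  choose Q Φ hΦ hcost using hch
  obtain ⟨S', hS1, hS2⟩ := hNEW Γ k W Pr hloc X a ha S K d p hp Q Φ
    (fun y => hΦ _ _ ⟨y, rfl, rfl⟩)
  refine ⟨S', ?_⟩
  -- the two functions of types
  set c1 : Finset Γ → Ty Γ k S.t K → Γ → ℝ := fun A τ v =>
    (PP Γ).real {b | Φ A τ (tb (TT d τ) (sg F b)) v ≠ Q A τ v} +
      (1 / 2) * (if Q A τ v = pp d τ v then 0 else 1) with hc1
  set c2 : Finset Γ → Ty Γ k S.t K → Γ → ℝ := fun A τ v => eps A v +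
      (1 / 2) * ((PP Γ).real {b | tb (TT d τ) (sg F b) v ≠ pp d τ v} + eps A v) with hc2
  obtain ⟨i1, e1⟩ := int_types ha hp S μ c1
  obtain ⟨i2, e2⟩ := int_types ha hp S μ c2
  have i3 := integrable_maj ha hp S F μ eps
  have hmne : MeasurableSet {x | S'.ψ x ≠ S.ψ x} :=
    (measurableSet_eq_fun S'.mψ S.mψ).compl
  have hpt : ∀ x, S'.err F x + Set.indicator {x | S'.ψ x ≠ S.ψ x} (fun _ => (1 / 2 : ℝ)) x =
      maj a K p eps (S.err F) x +
        (∑ A ∈ K.powerset, ∑ v ∈ A,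
          (if p x = some v ∧ shp a K p (a v⁻¹ x) = A then c1 A (tyX S K (a v⁻¹ x)) v else 0)) -
        (∑ A ∈ K.powerset, ∑ v ∈ A,
          (if p x = some v ∧ shp a K p (a v⁻¹ x) = A then c2 A (tyX S K (a v⁻¹ x)) v else 0)) := by
    intro x
    rcases h₀ : p x with _ | v₀
    · obtain ⟨h2, h3⟩ := hS2 x h₀
      rw [Set.indicator_of_notMem (by simp [h3]), add_zero]
      unfold maj
      rw [← h₀]
      rw [none_sum (a := a) (K := K) h₀ (fun A v => (3 / 2) * eps A v - (1 / 2) * S.err F x),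
        none_sum (a := a) (K := K) h₀ (fun A v => c1 A (tyX S K (a v⁻¹ x)) v),
        none_sum (a := a) (K := K) h₀ (fun A v => c2 A (tyX S K (a v⁻¹ x)) v)]
      rw [add_zero, add_zero, sub_zero]
      unfold Stage.err
      simp_rw [h2, h3]
    · obtain ⟨h2, h3⟩ := hS1 x v₀ h₀
      have hv₀ : v₀ ∈ K := hp.mem x v₀ h₀
      unfold maj
      rw [← h₀]
      rw [pos_sum ha hp h₀ (fun A v => (3 / 2) * eps A v - (1 / 2) * S.err F x),
        pos_sum ha hp h₀ (fun A v => c1 A (tyX S K (a v⁻¹ x)) v),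
        pos_sum ha hp h₀ (fun A v => c2 A (tyX S K (a v⁻¹ x)) v)]
      have h4 : c2 (shp a K p (a v₀⁻¹ x)) (tyX S K (a v₀⁻¹ x)) v₀ =
          S.err F x + ((3 / 2) * eps (shp a K p (a v₀⁻¹ x)) v₀ - (1 / 2) * S.err F x) := by
        rw [hc2]
        simp only
        rw [eold_eq hPRD ha S F d x hv₀]
        ring
      have h5 : c1 (shp a K p (a v₀⁻¹ x)) (tyX S K (a v₀⁻¹ x)) v₀ =
          S'.err F x + Set.indicator {x | S'.ψ x ≠ S.ψ x} (fun _ => (1 / 2 : ℝ)) x := by
        rw [hc1]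
        simp only
        congr 1
        · unfold Stage.err
          simp_rw [h2, h3]
          exact (stat hPRD F v₀⁻¹ fun ω =>
            Φ (shp a K p (a v₀⁻¹ x)) (tyX S K (a v₀⁻¹ x))
              (tb (TT d (tyX S K (a v₀⁻¹ x))) ω) v₀ ≠
              Q (shp a K p (a v₀⁻¹ x)) (tyX S K (a v₀⁻¹ x)) v₀).symm
        · rw [pp_ty ha S d x hv₀]
          by_cases h6 : Q (shp a K p (a v₀⁻¹ x)) (tyX S K (a v₀⁻¹ x)) v₀ = S.ψ x
          · rw [if_pos h6, mul_zero, Set.indicator_of_notMem]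
            simp only [Set.mem_ofPred_eq, not_not]
            rw [h3, h6]
          · rw [if_neg h6, mul_one, Set.indicator_of_mem]
            simp only [Set.mem_ofPred_eq]
            rw [h3]
            exact h6
      rw [h4, h5]
      ring
  have hint : ∫ x, S'.err F x ∂μ + (1 / 2) * μ.real {x | S'.ψ x ≠ S.ψ x} =
      ∫ x, maj a K p eps (S.err F) x ∂μ +
        (∑ A ∈ K.powerset, ∑ τ, ∑ v ∈ A,
          μ.real {x | (p x = some v ∧ shp a K p (a v⁻¹ x) = A) ∧ tyX S K (a v⁻¹ x) = τ} *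
          c1 A τ v) -
        ∑ A ∈ K.powerset, ∑ τ, ∑ v ∈ A,
          μ.real {x | (p x = some v ∧ shp a K p (a v⁻¹ x) = A) ∧ tyX S K (a v⁻¹ x) = τ} *
          c2 A τ v := by
    have h1 : (1 / 2) * μ.real {x | S'.ψ x ≠ S.ψ x} =
        ∫ x, Set.indicator {x | S'.ψ x ≠ S.ψ x} (fun _ => (1 / 2 : ℝ)) x ∂μ := by
      rw [integral_indicator_const _ hmne, smul_eq_mul, mul_comm]
    rw [h1, ← integral_add (integrable_err S' F μ) ((integrable_const _).indicator hmne),
      integral_congr_ae (Filter.Eventually.of_forall hpt)]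
    refine (integral_sub (i3.add i1) i2).trans ?_
    rw [e2]
    congr 1
    refine (integral_add i3 i1).trans ?_
    rw [e1]
  rw [hint]
  have hle : ∑ A ∈ K.powerset, ∑ τ, ∑ v ∈ A,
          μ.real {x | (p x = some v ∧ shp a K p (a v⁻¹ x) = A) ∧ tyX S K (a v⁻¹ x) = τ} *
          c1 A τ v ≤ ∑ A ∈ K.powerset, ∑ τ, ∑ v ∈ A,
          μ.real {x | (p x = some v ∧ shp a K p (a v⁻¹ x) = A) ∧ tyX S K (a v⁻¹ x) = τ} *
          c2 A τ v :=
    Finset.sum_le_sum fun A _ => Finset.sum_le_sum fun τ _ => hcost A τ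
  linarith

end

end Pool.Agent.Y451.AM

end
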