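import Pool.Agent.Y451.AM.Step

set_option autoImplicit false

/-! # One step of the construction: the average over the tilings -/

open MeasureTheory

noncomputable section

namespace Pool.Agent.Y451.AM

open Classical in
theorem sum_ite_pr {Ω : Type} [Fintype Ω] [Nonempty Ω] (E : Ω → Prop) (c : ℝ) :
    ∑ ω : Ω, (if E ω then c else 0) = (Fintype.card Ω : ℝ) * (pr E * c) := by
  have h0 : (Fintype.card Ω : ℝ) ≠ 0 := by
    have : 0 < Fintype.card Ω := Fintype.card_pos
    exact_mod_cast this.ne'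
  have h1 : ∑ ω : Ω, (if E ω then c else 0) = (∑ ω : Ω, if E ω then (1 : ℝ) else 0) * c := by
    rw [Finset.sum_mul]
    refine Finset.sum_congr rfl fun ω _ => ?_
    split_ifs <;> simp
  rw [h1]
  unfold pr
  field_simp

theorem sum_maj {Γ X Ω : Type} [Group Γ] [Fintype Ω] [Nonempty Ω] {a : Γ → X → X}
    {K : Finset Γ} {p : Ω → X → Option Γ} {q : Finset Γ → ℝ}
    (hq : ∀ x, ∀ A ∈ K.powerset, ∀ v ∈ A,
        pr (fun ω => p ω x = some v ∧ shp a K (p ω) (a v⁻¹ x) = A) = q A)
    (eps : Finset Γ → Γ → ℝ) (e : X → ℝ) (x : X) :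
    ∑ ω, maj a K (p ω) eps e x = (Fintype.card Ω : ℝ) *
      (e x + (3 / 2) * ∑ A ∈ K.powerset, q A * ∑ v ∈ A, eps A v -
        (1 / 2) * (∑ A ∈ K.powerset, q A * (A.card : ℝ)) * e x) := by
  classical
  unfold maj
  rw [Finset.sum_add_distrib, Finset.sum_const, Finset.card_univ, nsmul_eq_mul,
    Finset.sum_comm]
  have h1 : ∀ A ∈ K.powerset, ∑ ω, ∑ v ∈ A,
      (if p ω x = some v ∧ shp a K (p ω) (a v⁻¹ x) = A then
        (3 / 2) * eps A v - (1 / 2) * e x else 0) =
      (Fintype.card Ω : ℝ) * ((3 / 2) * (q A * ∑ v ∈ A, eps A v) -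
        (1 / 2) * (q A * (A.card : ℝ)) * e x) := by
    intro A hA
    rw [Finset.sum_comm]
    have h2 : ∀ v ∈ A, ∑ ω, (if p ω x = some v ∧ shp a K (p ω) (a v⁻¹ x) = A then
        (3 / 2) * eps A v - (1 / 2) * e x else 0) =
        (Fintype.card Ω : ℝ) * (q A * ((3 / 2) * eps A v - (1 / 2) * e x)) := by
      intro v hv
      rw [← hq x A hA v hv]
      convert sum_ite_pr (fun ω => p ω x = some v ∧ shp a K (p ω) (a v⁻¹ x) = A)
        ((3 / 2) * eps A v - (1 / 2) * e x) using 1
      refine Finset.sum_congr rfl fun ω _ => ?_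
      split_ifs <;> rfl
    rw [Finset.sum_congr rfl h2, ← Finset.mul_sum]
    congr 1
    rw [← Finset.mul_sum, Finset.sum_sub_distrib, ← Finset.mul_sum, Finset.sum_const,
      nsmul_eq_mul]
    ring
  have h3 : ∑ A ∈ K.powerset, ∑ ω, ∑ v ∈ A,
      (if p ω x = some v ∧ shp a K (p ω) (a v⁻¹ x) = A then
        (3 / 2) * eps A v - (1 / 2) * e x else 0) =
      ∑ A ∈ K.powerset, (Fintype.card Ω : ℝ) * ((3 / 2) * (q A * ∑ v ∈ A, eps A v) -
        (1 / 2) * (q A * (A.card : ℝ)) * e x) := Finset.sum_congr rfl h1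
  rw [h3, ← Finset.mul_sum, Finset.sum_sub_distrib, ← Finset.mul_sum, ← Finset.sum_mul,
    ← Finset.mul_sum]
  ring

theorem sqrt_le_lin {x y θ : ℝ} (hx : 0 ≤ x) (hy : 0 ≤ y) (hθ : 0 < θ) :
    Real.sqrt (x * y) ≤ θ * x + y / θ := by
  apply Real.sqrt_le_iff.2
  have h1 : 0 ≤ y / θ := div_nonneg hy hθ.le
  refine ⟨by positivity, ?_⟩
  have h2 : x * y = (θ * x) * (y / θ) := by field_simp
  rw [h2]
  have h3 : 0 ≤ θ * x := by positivity
  nlinarith

/-- One step of the construction. -/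
theorem step (hNEW : S_NEW) (hBOX : S_BOX) (hTIL : S_TIL) (hPRD : S_PRD) : S_STEP := by
  intro Γ _ _ hAm k W Pr hloc F hF hsol X _ _ a ha μ _ S δ hδ
  classical
  rcases isEmpty_or_nonempty X with hX | hX
  · refine ⟨S, ?_⟩
    have h0 : μ = 0 := Measure.eq_zero_of_isEmpty μ
    rw [h0]
    simp
    linarith
  set d : Fin k := F (fun _ => 0) with hd
  set m : ℝ := μ.real Set.univ with hm
  have hm0 : 0 ≤ m := measureReal_nonneg
  set β : ℝ := δ / (2 * (m + 1)) with hβ
  have hβ0 : 0 < β := by positivity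
  obtain ⟨Sb, C, hC, hA⟩ := hBOX Γ k W Pr hloc F hF hsol S.t (β / 4) (by positivity)
  choose eps heps hsum hbox using hA
  set θ : ℝ := β / (4 * (C + 1)) with hθ
  have hθ0 : 0 < θ := by positivity
  set ε' : ℝ := min (β / (4 * (C + 1))) (θ * (β / (4 * (C + 1)))) with hε'
  have hε'0 : 0 < ε' := lt_min (by positivity) (by positivity)
  obtain ⟨K, q, Ω, _, _, p, hp, hq0, hq1, hq2, hq3, hlaw⟩ := hTIL Γ hAm X a ha Sb ε' hε'0
  have h1 := fun ω => one hNEW hPRD hloc F ha μ S d (hp ω) eps hbox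
  have hcard : (0 : ℝ) < (Fintype.card Ω : ℝ) := by
    have : 0 < Fintype.card Ω := Fintype.card_pos
    exact_mod_cast this
  -- the total error
  set Bt : ℝ := ∑ A ∈ K.powerset, q A * ∑ v ∈ A, eps A v with hBt
  have hBle : Bt ≤ β := by
    have h2 : Bt ≤ ∑ A ∈ K.powerset, ((β / 4 + C * θ) * (q A * (A.card : ℝ)) +
        (C + C / θ) * (q A * ((bd Sb A).card : ℝ))) := by
      refine Finset.sum_le_sum fun A _ => ?_
      have h3 : ∑ v ∈ A, eps A v ≤ (β / 4 + C * θ) * (A.card : ℝ) +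
          (C + C / θ) * ((bd Sb A).card : ℝ) := by
        refine (hsum A).trans ?_
        unfold bnd
        have h4 := sqrt_le_lin (x := (A.card : ℝ)) (y := ((bd Sb A).card : ℝ)) (by positivity)
          (by positivity) hθ0
        have h5 := mul_le_mul_of_nonneg_left h4 hC
        have h6 : C * (θ * (A.card : ℝ) + ((bd Sb A).card : ℝ) / θ) =
            C * θ * (A.card : ℝ) + C / θ * ((bd Sb A).card : ℝ) := by ring
        rw [h6] at h5
        nlinarith
      calc q A * ∑ v ∈ A, eps A v ≤ q A * ((β / 4 + C * θ) * (A.card : ℝ) +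
            (C + C / θ) * ((bd Sb A).card : ℝ)) := mul_le_mul_of_nonneg_left h3 (hq0 A)
        _ = _ := by ring
    rw [Finset.sum_add_distrib, ← Finset.mul_sum, ← Finset.mul_sum] at h2
    have hC1 : 0 < C + 1 := by linarith
    have h7 : (β / 4 + C * θ) * ∑ A ∈ K.powerset, q A * (A.card : ℝ) ≤ β / 4 + C * θ := by
      have : 0 ≤ β / 4 + C * θ := by positivity
      nlinarith
    have h8 : (C + C / θ) * ∑ A ∈ K.powerset, q A * ((bd Sb A).card : ℝ) ≤
        (C + C / θ) * ε' := mul_le_mul_of_nonneg_left hq3 (by positivity)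
    have h9 : C * θ ≤ β / 4 := by
      have : (C + 1) * θ = β / 4 := by rw [hθ]; field_simp
      nlinarith
    have h10 : C * ε' ≤ β / 4 := by
      have h11 : ε' ≤ β / (4 * (C + 1)) := min_le_left _ _
      have h12 : (C + 1) * (β / (4 * (C + 1))) = β / 4 := by field_simp
      nlinarith
    have h13 : C / θ * ε' ≤ β / 4 := by
      have h11 : ε' ≤ θ * (β / (4 * (C + 1))) := min_le_right _ _
      have h14 : C / θ * ε' ≤ C / θ * (θ * (β / (4 * (C + 1)))) :=
        mul_le_mul_of_nonneg_left h11 (by positivity)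
      have h15 : C / θ * (θ * (β / (4 * (C + 1)))) = C * (β / (4 * (C + 1))) := by
        field_simp
      have h12 : (C + 1) * (β / (4 * (C + 1))) = β / 4 := by field_simp
      have h16 : 0 < β / (4 * (C + 1)) := by positivity
      nlinarith
    nlinarith
  -- the average
  have hI : ∀ ω, Integrable (maj a K (p ω) eps (S.err F)) μ := fun ω =>
    integrable_maj ha (hp ω) S F μ eps
  have hsumle : ∑ ω, ∫ x, maj a K (p ω) eps (S.err F) x ∂μ ≤
      ∑ _ω : Ω, ((7 / 8) * ∫ x, S.err F x ∂μ + δ) := by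
    rw [← integral_finsetSum _ fun ω _ => hI ω]
    have h2 : ∫ x, ∑ ω, maj a K (p ω) eps (S.err F) x ∂μ ≤
        ∫ x, (Fintype.card Ω : ℝ) * ((7 / 8) * S.err F x + (3 / 2) * Bt) ∂μ := by
      refine integral_mono (integrable_finsetSum _ fun ω _ => hI ω) ?_ fun x => ?_
      · exact (((integrable_err S F μ).const_mul _).add (integrable_const _)).const_mul _
      · simp only
        rw [sum_maj hlaw]
        refine mul_le_mul_of_nonneg_left ?_ hcard.le
        have h3 := err_nonneg S F x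
        have h4 : (1 / 8) * S.err F x ≤
            (1 / 2) * (∑ A ∈ K.powerset, q A * (A.card : ℝ)) * S.err F x :=
          mul_le_mul_of_nonneg_right (by linarith) h3
        linarith
    refine h2.trans ?_
    rw [integral_const_mul, integral_add ((integrable_err S F μ).const_mul _)
      (integrable_const _), integral_const_mul, integral_const, smul_eq_mul, Finset.sum_const,
      Finset.card_univ, nsmul_eq_mul, ← hm]
    refine mul_le_mul_of_nonneg_left ?_ hcard.le
    have h3 : m * ((3 / 2) * Bt) ≤ δ := by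
      have h4 : m * ((3 / 2) * Bt) ≤ m * ((3 / 2) * β) :=
        mul_le_mul_of_nonneg_left (by linarith) hm0
      have h5 : m * ((3 / 2) * β) ≤ (m + 1) * ((3 / 2) * β) :=
        mul_le_mul_of_nonneg_right (by linarith) (by positivity)
      have h6 : (m + 1) * ((3 / 2) * β) = (3 / 4) * δ := by
        rw [hβ]; field_simp; ring
      linarith
    linarith
  by_contra hcon
  push Not at hcon
  have h5 : ∑ _ω : Ω, ((7 / 8) * ∫ x, S.err F x ∂μ + δ) <
      ∑ ω, ∫ x, maj a K (p ω) eps (S.err F) x ∂μ := by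
    refine Finset.sum_lt_sum_of_nonempty Finset.univ_nonempty fun ω _ => ?_
    obtain ⟨S', hS'⟩ := h1 ω
    refine lt_of_lt_of_le (hcon S') (le_trans ?_ hS')
    have : 0 ≤ μ.real {x | S'.ψ x ≠ S.ψ x} := measureReal_nonneg
    linarith
  linarith

end Pool.Agent.Y451.AM

end
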