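import Pool.Agent.Y451.AM.Step2
import Pool.Agent.Y182.AM.Col
import Pool.Agent.Y381.AM.Til
import Pool.Agent.Y469.AM.Box
import Pool.Agent.Y688.AM.Lim
import Pool.Agent.Y366.AM.Fin
import Pool.Agent.Y385.AM.Unf
import Pool.Agent.W35.FI.ZN

set_option autoImplicit false

/-!
# Local problems on amenable groups: consequences of the step
-/

open MeasureTheory

noncomputable section

namespace Pool.Agent.Y451.AM

/-- From the free Bernoulli action to all free actions and all measures. -/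
theorem allOf (hS : S_STEP) (hP : S_PRD) {Γ : Type} [Group Γ] [Countable Γ] (hAm : Amen Γ) {k : ℕ}
    {W : Finset Γ} (P : Set ({g : Γ // g ∈ W} → Fin k))
    (h : Solvable P (Free Γ) shF (bern Γ))
    (X : Type) [MeasurableSpace X] [StandardBorelSpace X] (a : Γ → X → X) (ha : Act Γ X a)
    (μ : Measure X) [IsProbabilityMeasure μ] : Solvable P X a μ :=
  (Pool.Agent.Y366.AM.fin hS (Pool.Agent.Y688.AM.lim hP) hP Γ hAm k W P).2 h X a ha μ

theorem bernOf (hS : S_STEP) (hP : S_PRD) {Γ : Type} [Group Γ] [Countable Γ] (hAm : Amen Γ) :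
    IsProbabilityMeasure (bern Γ) ∧ StandardBorelSpace (Free Γ) ∧ Act Γ (Free Γ) shF ∧
      (∀ g, (bern Γ).map (shF g) = bern Γ) :=
  (Pool.Agent.Y366.AM.fin hS (Pool.Agent.Y688.AM.lim hP) hP Γ hAm 0 ∅ ∅).1

/-- Unfriendly colourings of the Schreier graphs of free actions of amenable groups. -/
theorem unfOf (hS : S_STEP) (hP : S_PRD) {Γ : Type} [Group Γ] [Countable Γ] (hAm : Amen Γ)
    (T : Finset Γ) (hT : ∀ s ∈ T, s⁻¹ ∈ T) (h1 : 1 ∉ T)
    (X : Type) [MeasurableSpace X] [StandardBorelSpace X] (a : Γ → X → X) (ha : Act Γ X a)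
    (μ : Measure X) [IsProbabilityMeasure μ] :
    ∃ f : X → Fin 2, Measurable f ∧
      ∀ᵐ x ∂μ, T.card ≤ 2 * {s : Γ | s ∈ T ∧ f (a s x) ≠ f x}.ncard := by
  classical
  obtain ⟨F, hF, hae⟩ := Pool.Agent.Y385.AM.unf hP Γ T hT h1
  let Pr : (Γ → Fin 2) → Prop := fun w => T.card ≤ 2 * {s : Γ | s ∈ T ∧ w s ≠ w 1}.ncard
  have hloc : LocP (insert 1 T) Pr := by
    intro w w' h hw
    have h2 : {s : Γ | s ∈ T ∧ w' s ≠ w' 1} = {s : Γ | s ∈ T ∧ w s ≠ w 1} := by
      ext s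
      simp only [Set.mem_ofPred_eq]
      constructor
      · rintro ⟨h3, h4⟩
        refine ⟨h3, ?_⟩
        rw [h s (Finset.mem_insert_of_mem h3), h 1 (Finset.mem_insert_self _ _)]
        exact h4
      · rintro ⟨h3, h4⟩
        refine ⟨h3, ?_⟩
        rw [← h s (Finset.mem_insert_of_mem h3), ← h 1 (Finset.mem_insert_self _ _)]
        exact h4
    show T.card ≤ 2 * {s : Γ | s ∈ T ∧ w' s ≠ w' 1}.ncard
    rw [h2]
    exact hw
  have hone : ∀ᵐ b ∂PP Γ, Pr (sg F b) := by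
    filter_upwards [hae] with b hb
    show T.card ≤ 2 * {s : Γ | s ∈ T ∧ F (sh s b) ≠ F (sh 1 b)}.ncard
    have h2 : sh (1 : Γ) b = b := by
      funext v
      show b (v * 1) = b v
      rw [mul_one]
    rw [h2]
    exact hb
  have hSol : ∀ᵐ b ∂PP Γ, Sol Pr (sg F b) := by
    have hall : ∀ g : Γ, ∀ᵐ b ∂PP Γ, Pr (sh g (sg F b)) := by
      intro g
      have h3 := (hP.2.1 Γ g).quasiMeasurePreserving.ae hone
      filter_upwards [h3] with b hb
      rw [sh_sg]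
      exact hb
    exact ae_all_iff.2 hall
  obtain ⟨f, hf, hfae⟩ := Pool.Agent.Y688.AM.lim hP hS Γ hAm 2 (insert 1 T) Pr hloc F hF hSol X a
    ha μ
  refine ⟨f, hf, ?_⟩
  filter_upwards [hfae] with x hx
  have h4 : T.card ≤ 2 * {s : Γ | s ∈ T ∧ f (a s x) ≠ f (a 1 x)}.ncard := hx
  rw [ha.one] at h4
  exact h4

/-- `ℤ ^ d` is amenable -/
theorem amen_zn (d : ℕ) : Amen (Multiplicative (Fin d → ℤ)) := by
  intro S ε hε
  obtain ⟨K, hK, h⟩ := Pool.Agent.W35.FI.amen_zn d S ε hε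
  refine ⟨K, hK, fun s hs => ?_⟩
  refine le_trans (le_of_eq ?_) (h s hs)
  congr 1
  have h1 : (fun g => s * g) '' {v | v ∈ K ∧ s * v ∉ K} =
      ((fun g => s * g) '' (K : Set (Multiplicative (Fin d → ℤ)))) \ (K : Set _) := by
    ext y
    constructor
    · rintro ⟨v, ⟨h2, h3⟩, rfl⟩
      exact ⟨⟨v, h2, rfl⟩, h3⟩
    · rintro ⟨⟨v, h2, rfl⟩, h3⟩
      exact ⟨v, ⟨h2, h3⟩, rfl⟩
  rw [← h1, Set.ncard_image_of_injective _ (mul_right_injective s)]

end Pool.Agent.Y451.AM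

end
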